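import Pool.Agent.Helper896.MO.Logav

/-!
# Functions of `Ω` at neighbouring integers are independent of polynomial phases on the minor arcs

From the starting files: the calculus of entropies for shift invariant means (`Pool.Agent.Y958.TC`), the
averaging over the scales (`Pool.Agent.Y304.U`), the prime number theorem in short intervals, van der Corput's
inequality (`Pool.Agent.H469R2.NK`).
From Mathlib: `ArithmeticFunction.cardFactors n`: the number of the prime factors of `n` with multiplicity.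
-/

set_option autoImplicit false

namespace Pool.Agent.Results.MP_e0aac0_nt.MinorArcs

open Finset Filter Topology

/-- The additive character `e(x) = exp (2 π i x)`. -/
noncomputable def e (x : ℝ) : ℂ := Complex.exp ((2 * Real.pi * x : ℝ) * Complex.I)

/-- The function `f` is of the form `f(n) = A(F(n)) u(n) w(n)`, where `F` is an additive function with values in an
abelian group which takes only finitely many values at the primes (for instance `Ω`, or the vector of the numbers of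
prime factors in finitely many classes of primes), `A` is any function bounded by one, `u` is multiplicative, bounded
by one and of modulus one at all large primes, and `w` is bounded by one and `w(p n) - w(n)` tends to zero for every
prime `p`. -/
def OmegaLike (f : ℕ → ℂ) : Prop :=
  ∃ (G : Type) (_ : AddCommGroup G) (F : ℕ → G) (A : G → ℂ) (u w : ℕ → ℂ) (P₀ : ℕ),
    (∀ m n : ℕ, Nat.Coprime m n → F (m * n) = F m + F n) ∧ (F '' {p | p.Prime}).Finite ∧
    (∀ y, ‖A y‖ ≤ 1) ∧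
    (∀ m n : ℕ, Nat.Coprime m n → u (m * n) = u m * u n) ∧ (∀ n, ‖u n‖ ≤ 1) ∧
    (∀ p : ℕ, p.Prime → P₀ ≤ p → ‖u p‖ = 1) ∧
    (∀ n, ‖w n‖ ≤ 1) ∧ (∀ p : ℕ, p.Prime → Tendsto (fun n => w (p * n) - w n) atTop (𝓝 0)) ∧
    ∀ n, f n = A (F n) * u n * w n

open Classical in
/-- The set `𝓔` has logarithmic density zero. -/
def LogDensityZero (𝓔 : Set ℕ) : Prop :=
  Tendsto (fun X : ℕ => (∑ N ∈ Icc 1 X, if N ∈ 𝓔 then (1 : ℝ) / N else 0) / Real.log X) atTop (𝓝 0)

/-- The frequency `α` lies on the minor arcs with parameter `Q` at the scale `N`: it is farther than `Q / N` from all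
the fractions with denominators up to `Q`. -/
def Minor (Q : ℝ) (N : ℕ) (α : ℝ) : Prop :=
  ∀ (q : ℕ) (c : ℤ), 1 ≤ q → (q : ℝ) ≤ Q → Q / N < |α - c / q|

lemma cardFactors_coprime (m n : ℕ) (h : Nat.Coprime m n) : ArithmeticFunction.cardFactors (m * n) =
    ArithmeticFunction.cardFactors m + ArithmeticFunction.cardFactors n := by
  rcases Nat.eq_zero_or_pos m with hm | hm
  · subst hm
    have : n = 1 := by simpa using h
    subst this
    simp
  rcases Nat.eq_zero_or_pos n with hn | hn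
  · subst hn
    have : m = 1 := by simpa using h
    subst this
    simp
  exact ArithmeticFunction.cardFactors_mul hm.ne' hn.ne'

/-- `f_0, f_1, ...` are arbitrary functions of the form `A(F(n)) u(n) w(n)` as above.

(1) The functions `n ↦ A(Ω(n))`, with `A` any function bounded by one, are of this form.

(2) Let `ω(N)` tend to infinity, arbitrarily slowly. There is a set `𝓔` of positive integers of logarithmic density
zero (the exceptional scales) such that for every number `k` of factors, all choices `s_i` of functions of the family,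
all shifts `h_i ≥ 0`, every degree `d + 1 ≥ 1` and every `ε > 0`, for all sufficiently large scales `N` outside `𝓔` and
all the real polynomials `q` of degree at most `d + 1` whose coefficient of `x^(d+1)` is on the minor arcs with
parameter `ω(N)` at the scale `N`

`| ∑_{n ≤ N} f_{s_1}(n + h_1) ... f_{s_k}(n + h_k) e(q(n)) | ≤ ε N`

and for all the intervals `[u, v)` in `[0, 1]`

`| ∑_{n ≤ N} (1_{{q(n)} ∈ [u, v)} - (v - u)) f_{s_1}(n + h_1) ... f_{s_k}(n + h_k) | ≤ ε N`.

(3) For every real polynomial `q` with at least one irrational coefficient other than the constant one there is a set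
`𝓔` of logarithmic density zero such that for all `k`, `s_i`, `h_i` and `ε > 0` both inequalities hold for all
sufficiently large `N` outside `𝓔` and all the intervals `[u, v)`. Moreover, without exceptional scales, the
logarithmic averages `(1 / log X) ∑_{n ≤ X} f_{s_1}(n + h_1) ... f_{s_k}(n + h_k) e(q(n)) / n` and
`(1 / log X) ∑_{n ≤ X} (1_{{q(n)} ∈ [u, v)} - (v - u)) f_{s_1}(n + h_1) ... f_{s_k}(n + h_k) / n` tend to zero. -/
theorem result :
    (∀ A : ℕ → ℂ, (∀ m, ‖A m‖ ≤ 1) → OmegaLike fun n => A (ArithmeticFunction.cardFactors n)) ∧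
    (∀ ω : ℕ → ℝ, Tendsto ω atTop atTop → ∀ f : ℕ → ℕ → ℂ, (∀ j, OmegaLike (f j)) →
      ∃ 𝓔 : Set ℕ, LogDensityZero 𝓔 ∧ ∀ (k : ℕ) (s h : Fin k → ℕ) (d : ℕ) (ε : ℝ), 0 < ε →
        ∃ N₀ : ℕ, ∀ N : ℕ, N₀ ≤ N → N ∉ 𝓔 → ∀ q : Polynomial ℝ, q.natDegree ≤ d + 1 →
          Minor (ω N) N (q.coeff (d + 1)) →
          ‖∑ n ∈ Icc 1 N, (∏ i, f (s i) (n + h i)) * e (q.eval (n : ℝ))‖ ≤ ε * N ∧
          ∀ u v : ℝ, 0 ≤ u → u ≤ v → v ≤ 1 →
            ‖∑ n ∈ Icc 1 N, ((if u ≤ Int.fract (q.eval (n : ℝ)) ∧ Int.fract (q.eval (n : ℝ)) < v then (1 : ℂ)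
              else 0) - ((v - u : ℝ) : ℂ)) * ∏ i, f (s i) (n + h i)‖ ≤ ε * N) ∧
    (∀ q : Polynomial ℝ, (∃ j, 1 ≤ j ∧ Irrational (q.coeff j)) → ∀ f : ℕ → ℕ → ℂ, (∀ j, OmegaLike (f j)) →
      (∃ 𝓔 : Set ℕ, LogDensityZero 𝓔 ∧ ∀ (k : ℕ) (s h : Fin k → ℕ) (ε : ℝ), 0 < ε →
        ∃ N₀ : ℕ, ∀ N : ℕ, N₀ ≤ N → N ∉ 𝓔 →
          ‖∑ n ∈ Icc 1 N, (∏ i, f (s i) (n + h i)) * e (q.eval (n : ℝ))‖ ≤ ε * N ∧
          ∀ u v : ℝ, 0 ≤ u → u ≤ v → v ≤ 1 →
            ‖∑ n ∈ Icc 1 N, ((if u ≤ Int.fract (q.eval (n : ℝ)) ∧ Int.fract (q.eval (n : ℝ)) < v then (1 : ℂ)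
              else 0) - ((v - u : ℝ) : ℂ)) * ∏ i, f (s i) (n + h i)‖ ≤ ε * N) ∧
      ∀ (k : ℕ) (s h : Fin k → ℕ),
        Tendsto (fun X : ℕ => (∑ n ∈ Icc 1 X, (∏ i, f (s i) (n + h i)) * e (q.eval (n : ℝ)) / n) /
          (Real.log X : ℂ)) atTop (𝓝 0) ∧
        ∀ u v : ℝ, 0 ≤ u → u ≤ v → v ≤ 1 →
          Tendsto (fun X : ℕ => (∑ n ∈ Icc 1 X, ((if u ≤ Int.fract (q.eval (n : ℝ)) ∧
            Int.fract (q.eval (n : ℝ)) < v then (1 : ℂ) else 0) - ((v - u : ℝ) : ℂ)) *
              (∏ i, f (s i) (n + h i)) / n) / (Real.log X : ℂ)) atTop (𝓝 0)) := by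
  refine ⟨?_, ?_, ?_⟩
  · intro A hA
    refine ⟨ℤ, inferInstance, fun n => (ArithmeticFunction.cardFactors n : ℤ), fun y => A y.toNat, fun _ => 1,
      fun _ => 1, 0, ?_, ?_, fun y => hA _, fun m n _ => (one_mul 1).symm, fun n => by simp, fun p _ _ => by simp,
      fun n => by simp, fun p _ => by simp, fun n => by simp⟩
    · intro m n h
      simp only
      rw [cardFactors_coprime m n h]
      push_cast
      rfl
    · refine (Set.finite_singleton (1 : ℤ)).subset ?_
      rintro _ ⟨p, hp, rfl⟩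
      have h1 : p.Prime := hp
      simp [ArithmeticFunction.cardFactors_apply_prime h1]
  · intro ω hω f hf
    obtain ⟨E, h1, h2⟩ := Pool.Agent.Helper896.MO.key7 ω hω f hf
    refine ⟨E, h1, fun k s h d ε hε => ?_⟩
    obtain ⟨N₀, h3⟩ := h2 k s h d ε hε
    refine ⟨N₀, fun N hN hNE q hq hM => ⟨(h3 N hN hNE q hq hM).1, fun u v hu huv hv => ?_⟩⟩
    refine le_trans (le_of_eq ?_) ((h3 N hN hNE q hq hM).2 u v hu huv hv)
    unfold Pool.Agent.Helper896.MO.XN
    congr 1
  · intro q hq f hf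
    obtain ⟨E, h1, h2⟩ := Pool.Agent.Helper896.MO.key8 q hq f hf
    have h4 : ∀ (k : ℕ) (s h : Fin k → ℕ) (ε : ℝ), 0 < ε → ∃ N₀ : ℕ, ∀ N : ℕ, N₀ ≤ N → N ∉ E →
          ‖∑ n ∈ Icc 1 N, (∏ i, f (s i) (n + h i)) * e (q.eval (n : ℝ))‖ ≤ ε * N ∧
          ∀ u v : ℝ, 0 ≤ u → u ≤ v → v ≤ 1 →
            ‖∑ n ∈ Icc 1 N, ((if u ≤ Int.fract (q.eval (n : ℝ)) ∧ Int.fract (q.eval (n : ℝ)) < v then (1 : ℂ)
              else 0) - ((v - u : ℝ) : ℂ)) * ∏ i, f (s i) (n + h i)‖ ≤ ε * N := by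
      intro k s h ε hε
      obtain ⟨N₀, h3⟩ := h2 k s h ε hε
      refine ⟨N₀, fun N hN hNE => ⟨(h3 N hN hNE).1, fun u v hu huv hv => ?_⟩⟩
      refine le_trans (le_of_eq ?_) ((h3 N hN hNE).2 u v hu huv hv)
      unfold Pool.Agent.Helper896.MO.XN
      congr 1
    refine ⟨⟨E, h1, h4⟩, fun k s h => ?_⟩
    have hP : ∀ n : ℕ, ‖∏ i, f (s i) (n + h i)‖ ≤ 1 := by
      intro n
      rw [norm_prod]
      exact prod_le_one (fun i _ => norm_nonneg _)
        (fun i _ => Pool.Agent.Helper896.MO.OL.le (hf (s i)) _)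
    refine ⟨?_, fun u v hu huv hv => ?_⟩
    · apply Pool.Agent.Helper896.MO.log_avg (fun n => (∏ i, f (s i) (n + h i)) * e (q.eval (n : ℝ))) _ E h1
      · intro ε hε
        obtain ⟨N₀, h5⟩ := h4 k s h ε hε
        exact ⟨N₀, fun N hN hNE => (h5 N hN hNE).1⟩
      · intro n
        have h6 : ‖e (q.eval (n : ℝ))‖ = 1 := Pool.Agent.Helper896.MA.ec_norm _
        rw [norm_mul, h6, mul_one]
        linarith [hP n]
    · apply Pool.Agent.Helper896.MO.log_avg (fun n => ((if u ≤ Int.fract (q.eval (n : ℝ)) ∧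
            Int.fract (q.eval (n : ℝ)) < v then (1 : ℂ) else 0) - ((v - u : ℝ) : ℂ)) *
              (∏ i, f (s i) (n + h i))) _ E h1
      · intro ε hε
        obtain ⟨N₀, h5⟩ := h4 k s h ε hε
        exact ⟨N₀, fun N hN hNE => (h5 N hN hNE).2 u v hu huv hv⟩
      · intro n
        rw [norm_mul]
        refine (mul_le_of_le_one_right (norm_nonneg _) (hP n)).trans ?_
        refine (norm_sub_le _ _).trans ?_
        have h6 : ‖(if u ≤ Int.fract (q.eval (n : ℝ)) ∧ Int.fract (q.eval (n : ℝ)) < v then (1 : ℂ) else 0)‖ ≤ 1 := by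
          split_ifs <;> simp
        have h7 : ‖((v - u : ℝ) : ℂ)‖ ≤ 1 := by
          rw [Complex.norm_real, Real.norm_eq_abs, abs_of_nonneg (by linarith)]
          linarith
        linarith

end Pool.Agent.Results.MP_e0aac0_nt.MinorArcs
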